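import Pool.Agent.Helper89.TQ.Ctx

set_option autoImplicit false
set_option linter.all false
set_option maxHeartbeats 40000000

namespace Pool.Agent.Helper20.TQ.c2_11_22_33_k3_
open Pool.Agent.Helper89.TQ

theorem nn2 {p0_ p1_ : Prop} (H_ : ¬ (p0_ ∧ p1_)) : ¬ p0_ ∨ ¬ p1_ := by tauto
theorem nn3 {p0_ p1_ p2_ : Prop} (H_ : ¬ (p0_ ∧ p1_ ∧ p2_)) : ¬ p0_ ∨ ¬ p1_ ∨ ¬ p2_ := by tauto
theorem nn4 {p0_ p1_ p2_ p3_ : Prop} (H_ : ¬ (p0_ ∧ p1_ ∧ p2_ ∧ p3_)) : ¬ p0_ ∨ ¬ p1_ ∨ ¬ p2_ ∨ ¬ p3_ := by tauto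
theorem nn5 {p0_ p1_ p2_ p3_ p4_ : Prop} (H_ : ¬ (p0_ ∧ p1_ ∧ p2_ ∧ p3_ ∧ p4_)) : ¬ p0_ ∨ ¬ p1_ ∨ ¬ p2_ ∨ ¬ p3_ ∨ ¬ p4_ := by tauto
theorem nn6 {p0_ p1_ p2_ p3_ p4_ p5_ : Prop} (H_ : ¬ (p0_ ∧ p1_ ∧ p2_ ∧ p3_ ∧ p4_ ∧ p5_)) : ¬ p0_ ∨ ¬ p1_ ∨ ¬ p2_ ∨ ¬ p3_ ∨ ¬ p4_ ∨ ¬ p5_ := by tauto
theorem nn7 {p0_ p1_ p2_ p3_ p4_ p5_ p6_ : Prop} (H_ : ¬ (p0_ ∧ p1_ ∧ p2_ ∧ p3_ ∧ p4_ ∧ p5_ ∧ p6_)) : ¬ p0_ ∨ ¬ p1_ ∨ ¬ p2_ ∨ ¬ p3_ ∨ ¬ p4_ ∨ ¬ p5_ ∨ ¬ p6_ := by tauto
theorem nn8 {p0_ p1_ p2_ p3_ p4_ p5_ p6_ p7_ : Prop} (H_ : ¬ (p0_ ∧ p1_ ∧ p2_ ∧ p3_ ∧ p4_ ∧ p5_ ∧ p6_ ∧ p7_)) : ¬ p0_ ∨ ¬ p1_ ∨ ¬ p2_ ∨ ¬ p3_ ∨ ¬ p4_ ∨ ¬ p5_ ∨ ¬ p6_ ∨ ¬ p7_ := by tauto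
theorem nn9 {p0_ p1_ p2_ p3_ p4_ p5_ p6_ p7_ p8_ : Prop} (H_ : ¬ (p0_ ∧ p1_ ∧ p2_ ∧ p3_ ∧ p4_ ∧ p5_ ∧ p6_ ∧ p7_ ∧ p8_)) : ¬ p0_ ∨ ¬ p1_ ∨ ¬ p2_ ∨ ¬ p3_ ∨ ¬ p4_ ∨ ¬ p5_ ∨ ¬ p6_ ∨ ¬ p7_ ∨ ¬ p8_ := by tauto
theorem qq1 {p0_ a_ b_ c_ : Prop} (H_ : p0_ → ¬ (a_ ∧ b_ ∧ c_)) : ¬ p0_ ∨ ¬ a_ ∨ ¬ b_ ∨ ¬ c_ := by tauto
theorem qq2 {p0_ p1_ a_ b_ c_ : Prop} (H_ : p0_ → p1_ → ¬ (a_ ∧ b_ ∧ c_)) : ¬ p0_ ∨ ¬ p1_ ∨ ¬ a_ ∨ ¬ b_ ∨ ¬ c_ := by tauto
theorem qq3 {p0_ p1_ p2_ a_ b_ c_ : Prop} (H_ : p0_ → p1_ → p2_ → ¬ (a_ ∧ b_ ∧ c_)) : ¬ p0_ ∨ ¬ p1_ ∨ ¬ p2_ ∨ ¬ a_ ∨ ¬ b_ ∨ ¬ c_ := by tauto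
theorem br_ (x k : ℤ) : x ≤ k ∨ k + 1 ≤ x := by omega

end Pool.Agent.Helper20.TQ.c2_11_22_33_k3_

namespace Pool.Agent.Helper20.TQ
open Pool.Agent.Helper89.TQ Pool.Agent.Helper20.TQ.c2_11_22_33_k3_

theorem c2_11_22_33_k3 {n1 n2 n3 A1 A2 A3 B1 B2 B3 m11_1 m11_2 m11_3 m12_1 m12_2 m12_3 m13_1 m13_2 m13_3 m22_1 m22_2 m22_3 m33_1 m33_2 m33_3 : ℤ}
    (C : Ctx2 n1 n2 n3 A1 A2 A3 B1 B2 B3 m11_1 m11_2 m11_3 m12_1 m12_2 m12_3 m13_1 m13_2 m13_3 m22_1 m22_2 m22_3 m33_1 m33_2 m33_3)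
    (e0 : 0 < B1)
    (e1 : 0 < A2)
    (e2 : 0 < A3)
    (s1 : 3 * A1 + 0 * B1 ≤ m11_1 + m22_1 + m33_1)
    (s2 : 3 * A2 + 0 * B2 ≤ m11_2 + m22_2 + m33_2)
    (s3 : 3 * A3 + 0 * B3 ≤ m11_3 + m22_3 + m33_3) : False := by
  have a0 := C.a0
  have a1 := C.a1
  have a2 := C.a2
  have a3 := C.a3
  have a4 := C.a4
  have a5 := C.a5
  have b0 := C.b0
  have b1 := C.b1
  have b2 := C.b2
  have b3 := C.b3
  have b4 := C.b4
  have b5 := C.b5
  have o0 := C.o0
  have o1 := C.o1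
  have o2 := C.o2
  have t12 := C.t12
  have t23 := C.t23
  have f11_0 := C.f11_0
  have f11_1 := C.f11_1
  have f11_2 := C.f11_2
  have f12_0 := C.f12_0
  have f12_1 := C.f12_1
  have f12_2 := C.f12_2
  have f12_3 := C.f12_3
  have f12_4 := C.f12_4
  have f12_5 := C.f12_5
  have f12_6 := C.f12_6
  have f13_0 := C.f13_0
  have f13_1 := C.f13_1
  have f13_2 := C.f13_2
  have f13_3 := C.f13_3
  have f13_4 := C.f13_4
  have f13_5 := C.f13_5
  have f13_6 := C.f13_6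
  have f13_7 := C.f13_7
  have f13_8 := C.f13_8
  have f22_0 := C.f22_0
  have f22_1 := C.f22_1
  have f22_2 := C.f22_2
  have f22_3 := C.f22_3
  have f22_4 := C.f22_4
  have f22_5 := C.f22_5
  have f22_6 := C.f22_6
  have f33_0 := C.f33_0
  have f33_1 := C.f33_1
  have f33_2 := C.f33_2
  have f33_3 := C.f33_3
  have f33_4 := C.f33_4
  have f33_5 := C.f33_5
  have f33_6 := C.f33_6
  have f33_7 := C.f33_7
  have f33_8 := C.f33_8
  have p11_12A : ¬ (0 < A1) ∨ ¬ (0 < B2) ∨ ¬ (2 * A1 ≤ m11_1 + m12_1) ∨ ¬ (2 * A2 ≤ m11_2 + m12_2) ∨ ¬ (2 * A3 ≤ m11_3 + m12_3) := qq2 (fun m0 m1 => C.p11_12A e0 m0 m1)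
  have p11_12B : ¬ (0 < A1) ∨ ¬ (0 < B2) ∨ ¬ (2 * B1 ≤ m11_1 + m12_1) ∨ ¬ (2 * B2 ≤ m11_2 + m12_2) ∨ ¬ (2 * B3 ≤ m11_3 + m12_3) := qq2 (fun m0 m1 => C.p11_12B e0 m0 m1)
  have p11_13A : ¬ (0 < A1) ∨ ¬ (0 < B3) ∨ ¬ (2 * A1 ≤ m11_1 + m13_1) ∨ ¬ (2 * A2 ≤ m11_2 + m13_2) ∨ ¬ (2 * A3 ≤ m11_3 + m13_3) := qq2 (fun m0 m1 => C.p11_13A e0 m0 m1)
  have p11_13B : ¬ (0 < A1) ∨ ¬ (0 < B3) ∨ ¬ (2 * B1 ≤ m11_1 + m13_1) ∨ ¬ (2 * B2 ≤ m11_2 + m13_2) ∨ ¬ (2 * B3 ≤ m11_3 + m13_3) := qq2 (fun m0 m1 => C.p11_13B e0 m0 m1)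
  have p11_22A := nn3 (C.p11_22A e0 e1)
  have p11_22B := nn3 (C.p11_22B e0 e1)
  have p11_33A := nn3 (C.p11_33A e0 e2)
  have p11_33B := nn3 (C.p11_33B e0 e2)
  have p12_13A : ¬ (0 < A1) ∨ ¬ (0 < B2) ∨ ¬ (0 < B3) ∨ ¬ (2 * A1 ≤ m12_1 + m13_1) ∨ ¬ (2 * A2 ≤ m12_2 + m13_2) ∨ ¬ (2 * A3 ≤ m12_3 + m13_3) := qq3 (fun m0 m1 m2 => C.p12_13A m0 m1 m2)
  have p12_13B : ¬ (0 < A1) ∨ ¬ (0 < B2) ∨ ¬ (0 < B3) ∨ ¬ (2 * B1 ≤ m12_1 + m13_1) ∨ ¬ (2 * B2 ≤ m12_2 + m13_2) ∨ ¬ (2 * B3 ≤ m12_3 + m13_3) := qq3 (fun m0 m1 m2 => C.p12_13B m0 m1 m2)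
  have p12_22A : ¬ (0 < A1) ∨ ¬ (0 < B2) ∨ ¬ (2 * A1 ≤ m12_1 + m22_1) ∨ ¬ (2 * A2 ≤ m12_2 + m22_2) ∨ ¬ (2 * A3 ≤ m12_3 + m22_3) := qq2 (fun m0 m1 => C.p12_22A m0 m1 e1)
  have p12_22B : ¬ (0 < A1) ∨ ¬ (0 < B2) ∨ ¬ (2 * B1 ≤ m12_1 + m22_1) ∨ ¬ (2 * B2 ≤ m12_2 + m22_2) ∨ ¬ (2 * B3 ≤ m12_3 + m22_3) := qq2 (fun m0 m1 => C.p12_22B m0 m1 e1)
  have p12_33A : ¬ (0 < A1) ∨ ¬ (0 < B2) ∨ ¬ (2 * A1 ≤ m12_1 + m33_1) ∨ ¬ (2 * A2 ≤ m12_2 + m33_2) ∨ ¬ (2 * A3 ≤ m12_3 + m33_3) := qq2 (fun m0 m1 => C.p12_33A m0 m1 e2)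
  have p12_33B : ¬ (0 < A1) ∨ ¬ (0 < B2) ∨ ¬ (2 * B1 ≤ m12_1 + m33_1) ∨ ¬ (2 * B2 ≤ m12_2 + m33_2) ∨ ¬ (2 * B3 ≤ m12_3 + m33_3) := qq2 (fun m0 m1 => C.p12_33B m0 m1 e2)
  have p13_22A : ¬ (0 < A1) ∨ ¬ (0 < B3) ∨ ¬ (2 * A1 ≤ m13_1 + m22_1) ∨ ¬ (2 * A2 ≤ m13_2 + m22_2) ∨ ¬ (2 * A3 ≤ m13_3 + m22_3) := qq2 (fun m0 m1 => C.p13_22A m0 m1 e1)
  have p13_22B : ¬ (0 < A1) ∨ ¬ (0 < B3) ∨ ¬ (2 * B1 ≤ m13_1 + m22_1) ∨ ¬ (2 * B2 ≤ m13_2 + m22_2) ∨ ¬ (2 * B3 ≤ m13_3 + m22_3) := qq2 (fun m0 m1 => C.p13_22B m0 m1 e1)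
  have p13_33A : ¬ (0 < A1) ∨ ¬ (0 < B3) ∨ ¬ (2 * A1 ≤ m13_1 + m33_1) ∨ ¬ (2 * A2 ≤ m13_2 + m33_2) ∨ ¬ (2 * A3 ≤ m13_3 + m33_3) := qq2 (fun m0 m1 => C.p13_33A m0 m1 e2)
  have p13_33B : ¬ (0 < A1) ∨ ¬ (0 < B3) ∨ ¬ (2 * B1 ≤ m13_1 + m33_1) ∨ ¬ (2 * B2 ≤ m13_2 + m33_2) ∨ ¬ (2 * B3 ≤ m13_3 + m33_3) := qq2 (fun m0 m1 => C.p13_33B m0 m1 e2)
  have p22_33A := nn3 (C.p22_33A e1 e2)
  have p22_33B := nn3 (C.p22_33B e1 e2)
  have tmzp := nn6 C.tmzp
  have tmpp := nn4 C.tmpp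
  have tzmp := nn4 C.tzmp
  have tzpm := nn4 C.tzpm
  have tpmm := nn6 C.tpmm
  have tpmz := nn7 C.tpmz
  have tpzm := nn7 C.tpzm
  clear C
  rcases f12_2 with f12_2 | f12_2
  · rcases f12_5 with f12_5 | f12_5
    · clear * - b3 f12_2 f12_4 f12_5 o0; omega
    · rcases f13_2 with f13_2 | f13_2
      · rcases f13_5 with f13_5 | f13_5
        · rcases t23 with t23 | t23
          · rcases f33_2 with f33_2 | f33_2
            · rcases p11_33A with p11_33A | p11_33A | p11_33A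
              · rcases p13_33A with p13_33A | p13_33A | p13_33A | p13_33A | p13_33A
                · clear * - e0 o0 p13_33A; omega
                · clear * - e2 o2 p13_33A; omega
                · clear * - f11_0 f13_2 f22_0 f33_2 o0 p13_33A s1; omega
                · clear * - f11_0 f11_1 f13_2 f13_5 f22_4 o0 p13_33A s2; omega
                · rcases f13_8 with f13_8 | f13_8
                  · clear * - b3 b5 f13_2 f13_5 f13_7 f13_8 o0; omega
                  · rcases p12_33A with p12_33A | p12_33A | p12_33A | p12_33A | p12_33A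
                    · clear * - e0 o0 p12_33A; omega
                    · clear * - e1 o1 p12_33A; omega
                    · clear * - f11_0 f12_2 f22_0 f33_2 o0 p12_33A s1; omega
                    · rcases p13_22A with p13_22A | p13_22A | p13_22A | p13_22A | p13_22A
                      · clear * - e0 o0 p13_22A; omega
                      · clear * - e2 o2 p13_22A; omega
                      · clear * - f13_2 p11_33A p13_22A s1; omega
                      · clear * - f11_0 f11_1 f12_5 f13_2 f13_5 o0 o1 p12_33A p13_22A s2; omega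
                      · rcases f22_5 with f22_5 | f22_5
                        · clear * - f11_0 f11_1 f12_5 f13_8 f22_5 f22_6 o0 o1 o2 p11_33A p12_33A p13_22A s1 s2 t23; omega
                        · clear * - f13_8 f22_5 f22_6 o2 p13_22A t23; omega
                    · rcases f33_8 with f33_8 | f33_8
                      · rcases f33_5 with f33_5 | f33_5
                        · clear * - a1 f11_0 f11_1 f12_5 f12_6 f22_4 f33_2 f33_5 f33_8 o0 o1 p12_33A s2 t23; omega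
                        · clear * - f11_0 f11_1 f12_5 f12_6 f13_2 f13_4 f13_5 f13_8 f22_4 f33_5 f33_8 o0 o1 p12_33A p13_33A s2 t23; omega
                      · clear * - f12_5 f12_6 f33_8 o1 p12_33A t23; omega
              · clear * - f22_4 p11_33A s2; omega
              · rcases f33_8 with f33_8 | f33_8
                · clear * - f11_2 f22_4 f22_6 f33_8 p11_33A s2 s3; omega
                · clear * - b3 f11_0 f11_1 f11_2 f22_4 f22_6 f33_8 o1 p11_33A s3; omega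
            · rcases f22_5 with f22_5 | f22_5
              · rcases f22_2 with f22_2 | f22_2
                · clear * - f11_0 f11_1 f22_2 f22_4 f22_5 f33_0 f33_2 f33_4 o0 s2 t23; omega
                · clear * - b3 f22_2 f22_4 f22_5 o0 o1 t23; omega
              · rcases f13_8 with f13_8 | f13_8
                · clear * - b3 b5 f13_2 f13_5 f13_7 f13_8 o0; omega
                · rcases p13_22A with p13_22A | p13_22A | p13_22A | p13_22A | p13_22A
                  · clear * - e0 o0 p13_22A; omega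
                  · clear * - a3 e0 f13_2 f13_4 f13_5 o0 p13_22A t23; omega
                  · rcases p11_33A with p11_33A | p11_33A | p11_33A
                    · clear * - f13_2 p11_33A p13_22A s1; omega
                    · clear * - f22_4 p11_33A s2; omega
                    · rcases f33_8 with f33_8 | f33_8
                      · clear * - f11_2 f22_4 f22_6 f33_8 p11_33A s2 s3; omega
                      · clear * - b3 f11_0 f11_1 f11_2 f22_4 f22_6 f33_8 o1 p11_33A s3; omega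
                  · clear * - b3 f13_2 f13_5 f22_5 o0 o1 p13_22A; omega
                  · clear * - f13_8 f22_5 f22_6 o2 p13_22A t23; omega
          · rcases f33_8 with f33_8 | f33_8
            · rcases f33_5 with f33_5 | f33_5
              · rcases f33_2 with f33_2 | f33_2
                · clear * - f11_0 f11_1 f11_2 f22_0 f22_4 f22_6 f33_2 f33_5 f33_7 f33_8 o0 s1 s2 s3; omega
                · clear * - b3 f11_0 f11_1 f11_2 f13_2 f13_4 f13_5 f22_1 f22_4 f22_6 f33_2 f33_5 f33_7 f33_8 o0 s1 s2 s3 t23; omega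
              · clear * - b3 f13_2 f13_4 f13_5 f33_5 f33_7 f33_8 o0 t23; omega
            · rcases f33_2 with f33_2 | f33_2
              · rcases p11_33A with p11_33A | p11_33A | p11_33A
                · rcases p12_33A with p12_33A | p12_33A | p12_33A | p12_33A | p12_33A
                  · clear * - a1 e0 f11_0 f33_2 p11_33A p12_33A; omega
                  · clear * - a0 f22_1 o1 p11_33A p12_33A s1; omega
                  · clear * - f11_0 f12_2 f22_0 f33_2 o0 p12_33A s1; omega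
                  · rcases f33_5 with f33_5 | f33_5
                    · clear * - f11_0 f11_1 f12_5 f22_0 f22_4 f33_2 f33_5 o0 o1 p12_33A s1 s2; omega
                    · rcases p13_22A with p13_22A | p13_22A | p13_22A | p13_22A | p13_22A
                      · clear * - e0 o0 p13_22A; omega
                      · clear * - e1 f11_0 f11_1 f12_5 f13_2 f13_4 f13_5 f22_4 o0 o1 p12_33A p13_22A s2; omega
                      · clear * - f13_2 p11_33A p13_22A s1; omega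
                      · clear * - f11_0 f11_1 f12_5 f13_2 f13_5 o0 o1 p12_33A p13_22A s2; omega
                      · rcases f13_8 with f13_8 | f13_8
                        · clear * - f11_0 f11_1 f12_5 f13_2 f13_4 f13_5 f13_8 f22_4 f22_6 f33_5 o0 o1 p12_33A p13_22A s2 t23; omega
                        · clear * - f11_0 f11_1 f12_5 f13_2 f13_4 f13_5 f13_8 f22_4 f22_6 f33_5 o0 o1 p12_33A p13_22A s2 t23; omega
                  · clear * - f12_5 f12_6 f33_8 o2 p12_33A t23; omega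
                · clear * - f22_4 p11_33A s2; omega
                · clear * - b3 f11_0 f11_1 f11_2 f22_4 f22_6 f33_8 o1 p11_33A s3; omega
              · rcases f13_8 with f13_8 | f13_8
                · clear * - b3 f13_2 f13_5 f13_7 f13_8 o0 t23; omega
                · rcases p12_33A with p12_33A | p12_33A | p12_33A | p12_33A | p12_33A
                  · clear * - e0 o0 p12_33A; omega
                  · clear * - e1 o1 p12_33A; omega
                  · clear * - a4 f11_0 f12_2 f22_1 f33_2 o0 p12_33A s1; omega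
                  · rcases p13_33A with p13_33A | p13_33A | p13_33A | p13_33A | p13_33A
                    · clear * - e0 o0 p13_33A; omega
                    · clear * - e2 o2 p13_33A; omega
                    · clear * - a4 f11_0 f13_2 f22_1 f33_2 o0 p13_33A s1; omega
                    · clear * - f11_0 f11_1 f13_2 f13_5 f22_4 o0 p13_33A s2; omega
                    · rcases f33_5 with f33_5 | f33_5
                      · clear * - f11_0 f11_1 f12_5 f13_2 f13_4 f13_5 f13_8 f22_1 f22_4 f33_2 f33_5 f33_8 o0 o1 p12_33A p13_33A s1 s2; omega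
                      · clear * - f11_0 f11_1 f12_5 f13_2 f13_4 f13_5 f13_8 f22_4 f33_5 f33_8 o0 o1 p12_33A p13_33A s2; omega
                  · clear * - f12_5 f12_6 f33_8 o2 p12_33A t23; omega
        · rcases f33_5 with f33_5 | f33_5
          · rcases f33_2 with f33_2 | f33_2
            · clear * - f11_0 f13_0 f13_3 f13_5 f22_0 f33_2 f33_4 f33_5 o0 o2 s1; omega
            · clear * - f11_0 f11_1 f13_0 f13_3 f13_5 f22_1 f22_4 f33_2 f33_4 f33_5 o0 o2 s1 s2; omega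
          · rcases f33_2 with f33_2 | f33_2
            · rcases t23 with t23 | t23
              · rcases p12_33A with p12_33A | p12_33A | p12_33A | p12_33A | p12_33A
                · clear * - e0 o0 p12_33A; omega
                · clear * - e1 o1 p12_33A; omega
                · clear * - f11_0 f12_2 f22_0 f33_2 o0 p12_33A s1; omega
                · rcases tmpp with tmpp | tmpp | tmpp | tmpp
                  · clear * - f11_0 f22_0 f33_0 o0 s1 tmpp; omega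
                  · clear * - f11_0 f12_5 f22_1 f33_1 f33_5 o0 o1 p12_33A s1 tmpp; omega
                  · clear * - e0 tmpp; omega
                  · clear * - f11_0 f11_1 f12_5 f22_4 p12_33A s2 tmpp; omega
                · rcases f33_8 with f33_8 | f33_8
                  · clear * - a4 f12_5 f12_6 f33_5 f33_8 o1 p12_33A t23; omega
                  · clear * - f12_5 f12_6 f33_8 o1 p12_33A t23; omega
              · rcases f33_8 with f33_8 | f33_8
                · clear * - b4 f33_5 f33_7 f33_8 t23; omega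
                · rcases tmpp with tmpp | tmpp | tmpp | tmpp
                  · clear * - f11_0 f22_0 f33_0 o0 s1 tmpp; omega
                  · rcases p11_33A with p11_33A | p11_33A | p11_33A
                    · clear * - f22_1 p11_33A s1 tmpp; omega
                    · clear * - f11_0 f11_1 f13_0 f13_3 f13_5 f22_1 f33_1 f33_5 o0 o2 p11_33A s1 tmpp; omega
                    · clear * - f11_1 f11_2 f13_0 f13_3 f13_5 f22_1 f22_4 f22_6 f33_1 f33_8 o2 p11_33A s1 s3 tmpp; omega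
                  · clear * - e0 tmpp; omega
                  · rcases p11_33A with p11_33A | p11_33A | p11_33A
                    · rcases p12_33A with p12_33A | p12_33A | p12_33A | p12_33A | p12_33A
                      · clear * - a1 e0 f11_0 f33_2 p11_33A p12_33A; omega
                      · clear * - a0 f22_1 o1 p11_33A p12_33A s1; omega
                      · clear * - f11_0 f12_2 f22_0 f33_2 o0 p12_33A s1; omega
                      · clear * - f11_0 f11_1 f12_5 f22_4 p12_33A s2 tmpp; omega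
                      · clear * - f12_5 f12_6 f33_8 o2 p12_33A t23; omega
                    · clear * - f22_4 p11_33A s2; omega
                    · clear * - b3 f11_0 f11_1 f11_2 f22_4 f22_6 f33_8 o1 p11_33A s3; omega
            · rcases tmpp with tmpp | tmpp | tmpp | tmpp
              · clear * - f11_0 f22_0 f33_0 o0 s1 tmpp; omega
              · rcases p11_33A with p11_33A | p11_33A | p11_33A
                · clear * - f22_1 p11_33A s1 tmpp; omega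
                · clear * - f11_0 f11_1 f13_0 f13_3 f13_5 f22_1 f33_1 f33_5 o0 o2 p11_33A s1 tmpp; omega
                · rcases f33_8 with f33_8 | f33_8
                  · clear * - f11_0 f11_1 f11_2 f13_0 f13_3 f13_5 f22_1 f22_4 f22_6 f33_1 f33_5 f33_8 o0 o2 p11_33A s1 s3 tmpp; omega
                  · clear * - f11_1 f11_2 f13_0 f13_3 f13_5 f22_1 f22_4 f22_6 f33_1 f33_8 o2 p11_33A s1 s3 tmpp; omega
              · clear * - e0 tmpp; omega
              · rcases f33_8 with f33_8 | f33_8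
                · rcases t23 with t23 | t23
                  · clear * - a4 f33_5 f33_7 f33_8 t23; omega
                  · clear * - b4 f33_5 f33_7 f33_8 t23; omega
                · rcases p12_33A with p12_33A | p12_33A | p12_33A | p12_33A | p12_33A
                  · clear * - e0 o0 p12_33A; omega
                  · clear * - e1 o1 p12_33A; omega
                  · clear * - a4 f11_0 f12_2 f22_1 f33_2 o0 p12_33A s1; omega
                  · clear * - f11_0 f11_1 f12_5 f22_4 p12_33A s2 tmpp; omega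
                  · clear * - f11_0 f11_1 f11_2 f12_5 f12_6 f22_4 f22_6 f33_8 o1 p12_33A s3 tmpp; omega
      · clear * - a2 a4 f13_0 f13_2 o2; omega
  · clear * - a2 f12_0 f12_2 o1; omega

end Pool.Agent.Helper20.TQ
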