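import Pool.Agent.Helper89.TQ.Ctx

set_option autoImplicit false
set_option linter.all false
set_option maxHeartbeats 40000000

namespace Pool.Agent.Helper20.TQ.c3_22_33_33_k3_
open Pool.Agent.Helper89.TQ

theorem nn2 {p0_ p1_ : Prop} (H_ : ¬ (p0_ ∧ p1_)) : ¬ p0_ ∨ ¬ p1_ := by tauto
theorem nn3 {p0_ p1_ p2_ : Prop} (H_ : ¬ (p0_ ∧ p1_ ∧ p2_)) : ¬ p0_ ∨ ¬ p1_ ∨ ¬ p2_ := by tauto
theorem nn4 {p0_ p1_ p2_ p3_ : Prop} (H_ : ¬ (p0_ ∧ p1_ ∧ p2_ ∧ p3_)) : ¬ p0_ ∨ ¬ p1_ ∨ ¬ p2_ ∨ ¬ p3_ := by tauto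
theorem nn5 {p0_ p1_ p2_ p3_ p4_ : Prop} (H_ : ¬ (p0_ ∧ p1_ ∧ p2_ ∧ p3_ ∧ p4_)) : ¬ p0_ ∨ ¬ p1_ ∨ ¬ p2_ ∨ ¬ p3_ ∨ ¬ p4_ := by tauto
theorem nn6 {p0_ p1_ p2_ p3_ p4_ p5_ : Prop} (H_ : ¬ (p0_ ∧ p1_ ∧ p2_ ∧ p3_ ∧ p4_ ∧ p5_)) : ¬ p0_ ∨ ¬ p1_ ∨ ¬ p2_ ∨ ¬ p3_ ∨ ¬ p4_ ∨ ¬ p5_ := by tauto
theorem nn7 {p0_ p1_ p2_ p3_ p4_ p5_ p6_ : Prop} (H_ : ¬ (p0_ ∧ p1_ ∧ p2_ ∧ p3_ ∧ p4_ ∧ p5_ ∧ p6_)) : ¬ p0_ ∨ ¬ p1_ ∨ ¬ p2_ ∨ ¬ p3_ ∨ ¬ p4_ ∨ ¬ p5_ ∨ ¬ p6_ := by tauto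
theorem nn8 {p0_ p1_ p2_ p3_ p4_ p5_ p6_ p7_ : Prop} (H_ : ¬ (p0_ ∧ p1_ ∧ p2_ ∧ p3_ ∧ p4_ ∧ p5_ ∧ p6_ ∧ p7_)) : ¬ p0_ ∨ ¬ p1_ ∨ ¬ p2_ ∨ ¬ p3_ ∨ ¬ p4_ ∨ ¬ p5_ ∨ ¬ p6_ ∨ ¬ p7_ := by tauto
theorem nn9 {p0_ p1_ p2_ p3_ p4_ p5_ p6_ p7_ p8_ : Prop} (H_ : ¬ (p0_ ∧ p1_ ∧ p2_ ∧ p3_ ∧ p4_ ∧ p5_ ∧ p6_ ∧ p7_ ∧ p8_)) : ¬ p0_ ∨ ¬ p1_ ∨ ¬ p2_ ∨ ¬ p3_ ∨ ¬ p4_ ∨ ¬ p5_ ∨ ¬ p6_ ∨ ¬ p7_ ∨ ¬ p8_ := by tauto
theorem qq1 {p0_ a_ b_ c_ : Prop} (H_ : p0_ → ¬ (a_ ∧ b_ ∧ c_)) : ¬ p0_ ∨ ¬ a_ ∨ ¬ b_ ∨ ¬ c_ := by tauto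
theorem qq2 {p0_ p1_ a_ b_ c_ : Prop} (H_ : p0_ → p1_ → ¬ (a_ ∧ b_ ∧ c_)) : ¬ p0_ ∨ ¬ p1_ ∨ ¬ a_ ∨ ¬ b_ ∨ ¬ c_ := by tauto
theorem qq3 {p0_ p1_ p2_ a_ b_ c_ : Prop} (H_ : p0_ → p1_ → p2_ → ¬ (a_ ∧ b_ ∧ c_)) : ¬ p0_ ∨ ¬ p1_ ∨ ¬ p2_ ∨ ¬ a_ ∨ ¬ b_ ∨ ¬ c_ := by tauto
theorem br_ (x k : ℤ) : x ≤ k ∨ k + 1 ≤ x := by omega

end Pool.Agent.Helper20.TQ.c3_22_33_33_k3_

namespace Pool.Agent.Helper20.TQ
open Pool.Agent.Helper89.TQ Pool.Agent.Helper20.TQ.c3_22_33_33_k3_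

theorem c3_22_33_33_k3 {n1 n2 n3 A1 A2 A3 B1 B2 B3 m11_1 m11_2 m11_3 m22_1 m22_2 m22_3 m23_1 m23_2 m23_3 m33_1 m33_2 m33_3 : ℤ}
    (C : Ctx3 n1 n2 n3 A1 A2 A3 B1 B2 B3 m11_1 m11_2 m11_3 m22_1 m22_2 m22_3 m23_1 m23_2 m23_3 m33_1 m33_2 m33_3)
    (e0 : 0 < B2)
    (e1 : 0 < A3)
    (s1 : 3 * A1 + 0 * B1 ≤ m22_1 + m33_1 + m33_1)
    (s2 : 3 * A2 + 0 * B2 ≤ m22_2 + m33_2 + m33_2)
    (s3 : 3 * A3 + 0 * B3 ≤ m22_3 + m33_3 + m33_3) : False := by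
  have a0 := C.a0
  have a1 := C.a1
  have a2 := C.a2
  have a3 := C.a3
  have a4 := C.a4
  have a5 := C.a5
  have b0 := C.b0
  have b1 := C.b1
  have b2 := C.b2
  have b3 := C.b3
  have b4 := C.b4
  have b5 := C.b5
  have o0 := C.o0
  have o1 := C.o1
  have o2 := C.o2
  have t12 := C.t12
  have t23 := C.t23
  have f11_0 := C.f11_0
  have f11_1 := C.f11_1
  have f11_2 := C.f11_2
  have f22_0 := C.f22_0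
  have f22_1 := C.f22_1
  have f22_2 := C.f22_2
  have f22_3 := C.f22_3
  have f22_4 := C.f22_4
  have f22_5 := C.f22_5
  have f22_6 := C.f22_6
  have f23_0 := C.f23_0
  have f23_1 := C.f23_1
  have f23_2 := C.f23_2
  have f23_3 := C.f23_3
  have f23_4 := C.f23_4
  have f23_5 := C.f23_5
  have f23_6 := C.f23_6
  have f23_7 := C.f23_7
  have f23_8 := C.f23_8
  have f23_9 := C.f23_9
  have f23_10 := C.f23_10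
  have f33_0 := C.f33_0
  have f33_1 := C.f33_1
  have f33_2 := C.f33_2
  have f33_3 := C.f33_3
  have f33_4 := C.f33_4
  have f33_5 := C.f33_5
  have f33_6 := C.f33_6
  have f33_7 := C.f33_7
  have f33_8 := C.f33_8
  have p11_22A : ¬ (0 < B1) ∨ ¬ (2 * A1 ≤ m11_1 + m22_1) ∨ ¬ (2 * A2 ≤ m11_2 + m22_2) ∨ ¬ (2 * A3 ≤ m11_3 + m22_3) := qq1 (fun m0 => C.p11_22A m0 e0)
  have p11_22B : ¬ (0 < B1) ∨ ¬ (2 * B1 ≤ m11_1 + m22_1) ∨ ¬ (2 * B2 ≤ m11_2 + m22_2) ∨ ¬ (2 * B3 ≤ m11_3 + m22_3) := qq1 (fun m0 => C.p11_22B m0 e0)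
  have p11_23A : ¬ (0 < B1) ∨ ¬ (0 < A2) ∨ ¬ (0 < B3) ∨ ¬ (2 * A1 ≤ m11_1 + m23_1) ∨ ¬ (2 * A2 ≤ m11_2 + m23_2) ∨ ¬ (2 * A3 ≤ m11_3 + m23_3) := qq3 (fun m0 m1 m2 => C.p11_23A m0 m1 m2)
  have p11_23B : ¬ (0 < B1) ∨ ¬ (0 < A2) ∨ ¬ (0 < B3) ∨ ¬ (2 * B1 ≤ m11_1 + m23_1) ∨ ¬ (2 * B2 ≤ m11_2 + m23_2) ∨ ¬ (2 * B3 ≤ m11_3 + m23_3) := qq3 (fun m0 m1 m2 => C.p11_23B m0 m1 m2)
  have p11_33A : ¬ (0 < B1) ∨ ¬ (2 * A1 ≤ m11_1 + m33_1) ∨ ¬ (2 * A2 ≤ m11_2 + m33_2) ∨ ¬ (2 * A3 ≤ m11_3 + m33_3) := qq1 (fun m0 => C.p11_33A m0 e1)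
  have p11_33B : ¬ (0 < B1) ∨ ¬ (2 * B1 ≤ m11_1 + m33_1) ∨ ¬ (2 * B2 ≤ m11_2 + m33_2) ∨ ¬ (2 * B3 ≤ m11_3 + m33_3) := qq1 (fun m0 => C.p11_33B m0 e1)
  have p22_23A : ¬ (0 < A2) ∨ ¬ (0 < B3) ∨ ¬ (2 * A1 ≤ m22_1 + m23_1) ∨ ¬ (2 * A2 ≤ m22_2 + m23_2) ∨ ¬ (2 * A3 ≤ m22_3 + m23_3) := qq2 (fun m0 m1 => C.p22_23A e0 m0 m1)
  have p22_23B : ¬ (0 < A2) ∨ ¬ (0 < B3) ∨ ¬ (2 * B1 ≤ m22_1 + m23_1) ∨ ¬ (2 * B2 ≤ m22_2 + m23_2) ∨ ¬ (2 * B3 ≤ m22_3 + m23_3) := qq2 (fun m0 m1 => C.p22_23B e0 m0 m1)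
  have p22_33A := nn3 (C.p22_33A e0 e1)
  have p22_33B := nn3 (C.p22_33B e0 e1)
  have p23_33A : ¬ (0 < A2) ∨ ¬ (0 < B3) ∨ ¬ (2 * A1 ≤ m23_1 + m33_1) ∨ ¬ (2 * A2 ≤ m23_2 + m33_2) ∨ ¬ (2 * A3 ≤ m23_3 + m33_3) := qq2 (fun m0 m1 => C.p23_33A m0 m1 e1)
  have p23_33B : ¬ (0 < A2) ∨ ¬ (0 < B3) ∨ ¬ (2 * B1 ≤ m23_1 + m33_1) ∨ ¬ (2 * B2 ≤ m23_2 + m33_2) ∨ ¬ (2 * B3 ≤ m23_3 + m33_3) := qq2 (fun m0 m1 => C.p23_33B m0 m1 e1)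
  have tmzp := nn6 C.tmzp
  have tmpp := nn4 C.tmpp
  have tzmp := nn4 C.tzmp
  have tzpm := nn6 C.tzpm
  have tpmm := nn4 C.tpmm
  have tpmz := nn6 C.tpmz
  have tpzm := nn6 C.tpzm
  clear C
  rcases p11_33A with p11_33A | p11_33A | p11_33A | p11_33A
  · rcases t12 with t12 | t12
    · clear * - o0 p11_33A t12; omega
    · clear * - p11_33A t12; omega
  · rcases t12 with t12 | t12
    · rcases tzmp with tzmp | tzmp | tzmp | tzmp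
      · clear * - t12 tzmp; omega
      · clear * - f22_4 f33_4 o1 s2 tzmp; omega
      · clear * - f11_0 f22_1 o0 p11_33A s1 tzmp; omega
      · rcases f33_2 with f33_2 | f33_2
        · rcases f23_3 with f23_3 | f23_3 | f23_3
          · rcases p23_33A with p23_33A | p23_33A | p23_33A | p23_33A | p23_33A
            · clear * - f11_0 f22_1 o0 o1 p11_33A p23_33A s1 t12; omega
            · clear * - f11_0 f22_1 f22_4 f22_6 f33_4 f33_7 o0 o1 p11_33A p23_33A s1 s2 s3 t12 tzmp; omega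
            · clear * - a1 f23_3 f33_2 p23_33A; omega
            · rcases f23_7 with f23_7 | f23_7 | f23_7
              · clear * - f22_4 f23_3 f23_7 f33_0 f33_3 o1 p23_33A s2; omega
              · clear * - f22_4 f23_7 o1 p23_33A s2; omega
              · clear * - f22_4 f22_6 f23_7 f33_4 f33_7 o1 p23_33A s2 s3 tzmp; omega
            · rcases f23_7 with f23_7 | f23_7 | f23_7
              · clear * - f22_4 f23_3 f23_5 f23_7 f33_0 f33_3 o1 s2; omega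
              · rcases f23_10 with f23_10 | f23_10
                · clear * - f22_4 f22_6 f23_10 f23_7 f33_7 o1 p23_33A s3; omega
                · clear * - f22_4 f22_6 f23_10 f33_7 p23_33A s3 tzmp; omega
              · clear * - f22_4 f22_6 f23_5 f23_7 f33_4 f33_7 o1 s2 s3 tzmp; omega
          · clear * - f11_0 f22_1 f23_0 f23_3 f33_2 o0 o1 p11_33A s1; omega
          · clear * - f22_4 f22_6 f23_1 f23_3 f33_4 f33_7 o1 s2 s3 tzmp; omega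
        · clear * - f11_0 f22_1 f22_4 f33_2 f33_4 o0 o1 p11_33A s1 s2; omega
    · rcases f23_10 with f23_10 | f23_10
      · rcases f23_7 with f23_7 | f23_7 | f23_7
        · rcases f23_3 with f23_3 | f23_3 | f23_3
          · clear * - b5 f22_4 f23_10 f23_3 f23_7 f23_9 f33_0 f33_3 o1 s2; omega
          · clear * - a2 a3 b5 f23_10 f23_3 f23_7 f23_9 o1; omega
          · clear * - a3 b2 f22_4 f22_6 f23_10 f23_3 f23_7 f23_9 f33_4 f33_7 o0 o1 s2 s3; omega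
        · clear * - b5 f23_10 f23_7 f23_9 o1; omega
        · clear * - f22_4 f22_6 f23_10 f23_7 f23_9 f33_4 f33_7 o1 s2 s3; omega
      · rcases f23_3 with f23_3 | f23_3 | f23_3
        · rcases f23_7 with f23_7 | f23_7 | f23_7
          · clear * - a1 f11_0 f22_4 f23_3 f23_5 f23_7 f33_3 o0 o1 p11_33A s2; omega
          · rcases tzmp with tzmp | tzmp | tzmp | tzmp
            · clear * - f11_0 f22_4 f33_3 o0 o1 p11_33A s2 tzmp; omega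
            · clear * - f22_4 f33_4 o1 s2 tzmp; omega
            · clear * - f11_0 f22_1 o0 p11_33A s1 tzmp; omega
            · rcases p23_33A with p23_33A | p23_33A | p23_33A | p23_33A | p23_33A
              · clear * - f11_0 f22_1 o0 o1 p11_33A p23_33A s1 t12; omega
              · clear * - f11_0 f22_1 f22_4 f22_6 f33_4 f33_7 o0 o1 p11_33A p23_33A s1 s2 s3 t12 tzmp; omega
              · clear * - a1 f22_0 f23_3 p23_33A s1; omega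
              · clear * - f22_4 f23_7 o1 p23_33A s2; omega
              · clear * - f22_4 f22_6 f23_10 f33_7 p23_33A s3 tzmp; omega
          · clear * - f22_4 f23_5 f23_7 f33_4 o1 o2 s2; omega
        · rcases f33_2 with f33_2 | f33_2
          · clear * - f11_0 f22_1 f23_0 f23_3 f33_2 o0 o1 p11_33A s1; omega
          · clear * - f11_0 f22_1 f22_4 f33_2 f33_4 o0 o1 p11_33A s1 s2; omega
        · clear * - f22_4 f23_1 f23_3 f33_4 o1 o2 s2; omega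
  · clear * - a3 f11_0 f11_1 f22_4 o0 o1 p11_33A s2; omega
  · clear * - a3 f11_0 f11_1 f11_2 f22_4 f22_6 f33_7 o0 o1 p11_33A s3; omega

end Pool.Agent.Helper20.TQ
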